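import Pool.Agent.MP_249f74_an.H20.Ber
import Pool.Agent.MP_249f74_an.H65.Desc
import Pool.Agent.MP_249f74_an.H18.Base

/-!
Rigidity for one component, for real mirrors.
-/

open MvPolynomial Matrix

namespace Pool.Agent.MP_249f74_an.H20

open H17 (Der)
open H17.Cm (grad rf)
open H18 (Dev Hs Cm3 th2 spec2)
open H27 (Tg tl_iff)
open H32 (Mir pos dir pt St Tl)
open H65 (Gr Rk1)
open H90 (dv dv_add dv_sub dv_smul)

variable {k C Ω ι : Type} [Field k] [Field C] [Field Ω] [Algebra C Ω] [Fintype ι] [DecidableEq ι]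

lemma hs_dot (f : MvPolynomial ι C) (q a : ι → Ω) (θ : Der C Ω) :
    Hs f q a (dv q θ) = a ⬝ᵥ dv (grad f q) θ := by
  simp only [Hs, dotProduct, H90.dv_apply, grad, H17.Cm.der_aeval, Finset.mul_sum]
  exact Finset.sum_congr rfl fun _ _ => Finset.sum_congr rfl fun _ _ => by ring

lemma dev_of_gen [Infinite Ω] {f : MvPolynomial ι C} {q : ι → Ω} (hq : ∀ P, aeval q P = 0 → f ∣ P)
    (h : ∀ a b, grad f q ⬝ᵥ a = 0 → grad f q ⬝ᵥ b = 0 →
      Hs f q a a * Hs f q b b = Hs f q a b ^ 2) : Dev f := by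
  intro B _ _ q' a b h0 hn ha hb
  obtain ⟨e, he⟩ := Function.ne_iff.1 hn
  have he' : grad f q' e ≠ 0 := he
  let c : MvPolynomial ι C → MvPolynomial (ι ⊕ ι) (MvPolynomial (Option ι) C) :=
    fun p => MvPolynomial.C (rename some p)
  let z : (ι → ι ⊕ ι) → ι → MvPolynomial (ι ⊕ ι) (MvPolynomial (Option ι) C) := fun s i =>
    c (pderiv e f) * X (s i) - if i = e then ∑ j, c (pderiv j f) * X (s j) else 0
  let W := fun s t : ι → ι ⊕ ι => ∑ i, ∑ j, c (pderiv j (pderiv i f)) * z s i * z t j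
  have key : ∀ (L : Type) [Field L] [Algebra C L] (x : ι → L) (u : ι ⊕ ι → L) (s t : ι → ι ⊕ ι),
      th2 1 x u (W s t) =
        Hs f x (grad f x e • (u ∘ s) - (grad f x ⬝ᵥ (u ∘ s)) • (Pi.single e 1 : ι → L))
          (grad f x e • (u ∘ t) - (grad f x ⬝ᵥ (u ∘ t)) • (Pi.single e 1 : ι → L)) := fun L _ _ x u s t => by
    simp [W, z, c, th2, Hs, grad, dotProduct, Pi.single_apply, apply_ite (aevalTower _ u)]
  have := spec2 (a := 1) hq (by simp) h0 (by simp)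
    (W := W .inl .inl * W .inr .inr - W .inl .inr ^ 2) (fun u => by
      rw [map_sub, map_mul, map_pow, key, key, key, sub_eq_zero]
      exact h _ _ (by simp [mul_comm]) (by simp [mul_comm])) (Sum.elim a b)
  rw [map_sub, map_mul, map_pow, key, key, key, Sum.elim_comp_inl, Sum.elim_comp_inr, ha, hb,
    zero_smul, sub_zero, sub_zero] at this
  have h1 : ∀ a b : ι → B, Hs f q' (grad f q' e • a) (grad f q' e • b) =
      grad f q' e ^ 2 * Hs f q' a b := fun a b => by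
    simp only [Hs, Finset.mul_sum, Pi.smul_apply, smul_eq_mul]
    exact Finset.sum_congr rfl fun _ _ => Finset.sum_congr rfl fun _ _ => by ring
  rw [h1, h1, h1] at this
  refine mul_left_cancel₀ (pow_ne_zero 4 he') ?_
  linear_combination this

lemma dev_of_rk1 [CharZero Ω] {K : Type} [Field K] [Algebra k K] {f : MvPolynomial ι C}
    {q w : ι → K} {e : ι} {d : ι → Derivation k K K} (G : Gr q e w d) (φ : K →+* Ω)
    (hk : ∀ c, ∃ c', φ (algebraMap k K c) = algebraMap C Ω c')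
    (hq : ∀ P, aeval (φ ∘ q) P = 0 ↔ f ∣ P) {s : Ω} (s0 : s ≠ 0)
    (hs : grad f (φ ∘ q) = s • φ ∘ w) (hr : Rk1 w d) : Dev f := by
  have : CharZero K := φ.charZero
  obtain ⟨A, hA⟩ : ∃ A, A = (of fun i j => d j (w i)).map φ := ⟨_, rfl⟩
  have sA : A.IsSymm := hA ▸ (IsSymm.ext fun i j => G.sym j i).map φ
  have h1 : ∀ a b, grad f (φ ∘ q) ⬝ᵥ a = 0 → grad f (φ ∘ q) ⬝ᵥ b = 0 →
      Hs f (φ ∘ q) a b = s * (a ⬝ᵥ A *ᵥ b) := fun a b ha hb => by
    obtain ⟨θ, hθ⟩ := H65.ex_tan hq hb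
    obtain rfl : dv (φ ∘ q) θ = b := funext hθ
    rw [hs, smul_dotProduct, smul_eq_mul, mul_eq_zero, or_iff_right s0] at ha
    rw [hs_dot, hs, dv_smul, show dv (φ ∘ w) θ = A *ᵥ dv (φ ∘ q) θ from
      hA ▸ funext fun i => (al G φ hk θ).2 (w i)]
    simp [dotProduct_comm a, ha]
  refine dev_of_gen (fun P => (hq P).1) fun a b ha hb => ?_
  have := congrArg (b ⬝ᵥ ·) (r1_vec sA (fun i j a b => by
    simpa [hA, map_ofNat] using congrArg φ (rk1_mat G hr i j a b)) a b)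
  simp only [dotProduct_smul, smul_eq_mul, H74.symm_dot sA b a] at this
  rw [h1 a a ha ha, h1 b b hb hb, h1 a b ha hb]
  linear_combination s ^ 2 * this

variable [Algebra k ℝ] [Algebra k C] [IsAlgClosed C] {m m' : Mir k C ι}

lemma ex_gr (m : Mir k C ι) {q : ι → Ω} (hq : m.On q) : ∃ (K : Type) (_ : Field K)
    (_ : Algebra k K) (q0 w : ι → K) (e : ι) (d : ι → Derivation k K K) (φ : K →+* Ω) (s : Ω),
      Gr q0 e w d ∧ (∀ c, φ (algebraMap k K c) = algebraMap C Ω (algebraMap k C c)) ∧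
        q = φ ∘ q0 ∧ s ≠ 0 ∧ grad m.f q = s • φ ∘ w := by
  obtain ⟨f, K, _, _, y, e, d, R⟩ := H65.ex_rm m
  let _ : Algebra k Ω := ((algebraMap C Ω).comp (algebraMap k C)).toAlgebra
  have : IsScalarTower k C Ω := .of_algebraMap_eq fun _ => rfl
  obtain ⟨φ, h1, -⟩ := R.emb Ω q hq
  obtain ⟨a, a0, h2⟩ := R.eq
  have h3 := (map_ne_zero φ).2 R.ne
  refine ⟨K, _, _, y, _, e, d, φ, algebraMap C Ω a * φ (grad f y e), R.gr, φ.commutes,
    (funext h1).symm, mul_ne_zero ((map_ne_zero _).2 a0) h3, funext fun i => ?_⟩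
  have h4 : grad m.f q i = algebraMap C Ω a * φ (grad f y i) := by
    simp only [grad, h2, pderiv_C_mul, pderiv_map, map_mul, aeval_C, aeval_map_algebraMap,
      comp_aeval_apply, h1]
  rw [h4, Pi.smul_apply, Function.comp_apply, map_div₀, smul_eq_mul, mul_assoc]
  exact congrArg _ (mul_div_cancel₀ _ h3).symm

/-- Rigidity from one linear condition on the reflected edge. -/
theorem ber_edge [CharZero Ω] (hne : m ≠ m') (hd : ¬Dev m'.f) {l l' : ι ⊕ ι → Ω} {t a b : Ω}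
    {n : ι → Ω} (hl : Tl m' l) (hs : St m l t l') (n0 : n ≠ 0) (ab : a ≠ 0 ∨ b ≠ 0)
    (h : ∀ θ : Der C Ω, n ⬝ᵥ (a • dv (pos l') θ + b • dv (dir l') θ) = 0) : Cm3 m.f m'.f := by
  obtain ⟨s, hl⟩ := tl_iff.1 hl
  have ts := hl.ne hs.zero (.inl hne)
  have st := sub_ne_zero.2 ts.symm
  have hq := (hl.oth ts hs.zero).1
  obtain ⟨K, _, _, q0, w, e, d, φ, -, S, k1, e1, -⟩ := ex_gr m hq
  obtain ⟨K', _, _, p0, w', e', d', ψ, c, T, k2, e2, c0, e3⟩ := ex_gr m' hl.on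
  have dp : ∀ (l : ι ⊕ ι → Ω) t (θ : Der C Ω), dv (pt l t) θ =
      dv (pos l) θ + t • dv (dir l) θ + θ t • dir l := fun l t θ => H27.dv_pt θ l t
  have fr : ∀ a b, grad m'.f (pt l s) ⬝ᵥ (a + s • b) = 0 →
      ∃ θ : Der C Ω, dv (pos l) θ = a ∧ dv (dir l) θ = b := fun a b => hl.free
  have tq : ∀ θ : Der C Ω, grad m.f (pt l t) ⬝ᵥ dv (pt l t) θ = 0 := fun θ =>
    H17.Cm.grad_dv (θ := θ) hs.zero
  have h' : ∀ θ : Der C Ω, a * (n ⬝ᵥ dv (pt l t) θ) - a * θ t * (n ⬝ᵥ dir l') +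
      (b - a * t) * (n ⬝ᵥ dv (dir l') θ) = 0 := fun θ => by
    have := h θ
    rw [← hs.pt_eq, dp]
    simp only [dotProduct_add, dotProduct_smul, smul_eq_mul] at this ⊢
    linear_combination this
  have k : ∀ x y : Ω, (a * x + b * y) * (n ⬝ᵥ dir l') = 0 := fun x y => by
    obtain ⟨θ, a1, a2⟩ := fr (x • dir l) (y • dir l) (by simp [hl.tan])
    have h1 : dv (pt l t) θ = (x + t * y + θ t) • dir l := by rw [dp, a1, a2]; module
    have h2 : x + t * y + θ t = 0 := by simpa [h1, hs.nu] using tq θ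
    rw [h2, zero_smul] at h1
    have h3 : dv (dir l') θ = y • dir l' := by
      rw [hs.dir_eq, ← H17.Cm.rf_smul, ← a2]
      exact H17.Cm.dv_rf (H17.Cm.dv_grad (θ := θ) h1 _) _
    have := h' θ
    rw [h1, h3, dotProduct_smul, dotProduct_zero, smul_eq_mul] at this
    linear_combination this + a * (n ⬝ᵥ dir l') * h2
  have nu : n ⬝ᵥ dir l' = 0 := ab.elim (fun h => by simpa [h] using k 1 0) fun h => by
    simpa [h] using k 0 1
  have hy : pt l s - pt l t = (s - t) • dir l := by simp only [pt]; module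
  have gen : ∀ ξ ζ, grad m'.f (pt l s) ⬝ᵥ ζ = 0 → ∃ (θ : Der C Ω) (x y : Ω),
      dv (pt l t) θ = ξ + x • (s - t) • dir l ∧ dv (pt l s) θ = ζ + y • (s - t) • dir l :=
    fun ξ ζ h0 => by
      have e : ξ - t • (s - t)⁻¹ • (ζ - ξ) + s • (s - t)⁻¹ • (ζ - ξ) = ζ := by
        match_scalars <;> field_simp <;> ring
      obtain ⟨θ, a1, a2⟩ := fr (ξ - t • (s - t)⁻¹ • (ζ - ξ)) _ (e.symm ▸ h0)
      exact ⟨θ, θ t / (s - t), θ s / (s - t),
        by rw [dp, a1, a2, sub_add_cancel, smul_smul, div_mul_cancel₀ _ st],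
        by rw [dp, a1, a2, e, smul_smul, div_mul_cancel₀ _ st]⟩
  have b0 : b - a * t ≠ 0 := fun b0 => by
    have a0 : a ≠ 0 := fun a0 => by simp [a0] at b0 ab; exact ab b0
    obtain ⟨x, hx⟩ := H74.par1 (T := grad m.f (pt l t)) (K := n) fun w hw => by
      obtain ⟨θ, x, -, a1, -⟩ := gen w 0 (by simp)
      have x0 : x = 0 := by simpa [a1, hw, hs.nu, st] using tq θ
      simpa [a1, x0, b0, nu, a0] using h' θ
    rw [hx, hs.dir_eq, smul_dotProduct, H17.Cm.dot_rf hs.nn] at nu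
    exact n0 (by simpa [hx, hs.nu] using Or.inl (b := grad m.f (pt l t) = 0) (by
      simpa [hs.nu] using nu))
  refine ber (a := a) (n' := n) m.deg m'.deg hq hl.on hq.grad_ne hl.on.grad_ne S T φ ψ k1 k2 e1 e2
    (fun hr => hd (dev_of_rk1 T ψ (fun c => ⟨_, k2 c⟩) (e2 ▸ hl.on) c0 (e2 ▸ e3) hr)) hy.symm
    (by simp [hl.tan]) gen (div_ne_zero b0 st) n0 ?_ fun θ => ?_ <;>
    rw [H17.Cm.rf_smul, ← hs.dir_eq]
  · simp [nu]
  · have := h' θ
    simp only [dv_smul, dotProduct_add, dotProduct_smul, nu, smul_eq_mul] at this ⊢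
    rw [mul_zero, zero_add, ← mul_assoc, div_mul_cancel₀ _ st]
    linear_combination this

theorem ber_row [CharZero C] : H18.BER k C ι := by
  rintro m m' hne hd ⟨B, _, _, _, l, l', t, h1, h2, h3⟩
  have : CharZero B := charZero_of_injective_algebraMap (algebraMap C B).injective
  obtain ⟨s, h3⟩ := tl_iff.1 h3
  exact ber_edge hne hd h1 h2 h3.on.grad_ne (.inl one_ne_zero) (b := s) fun θ => by
    rw [one_smul]; exact h3.dot θ

end Pool.Agent.MP_249f74_an.H20
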