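import Pool.Agent.MP_249f74_an.H20.BerQ
import Pool.Agent.MP_249f74_an.H17.CmBerq
import Pool.Agent.MP_249f74_an.H32.Tq

/-!
A tangent complex that is invariant under one reflection belongs to a commuting mirror.
-/

open MvPolynomial
open Matrix hiding vec J

set_option linter.unusedSectionVars false

namespace Pool.Agent.MP_249f74_an.H20

open H17 (Der)
open H17.Cm (hat vec sp hat_dot vec_dot quad Conf Warp grad rf)
open H90 (dv dv_apply dv_dot dv_add dv_sub dv_smul dv_zero)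
open H74 (par1 eq_zero_of_dot symm_dot cv const_of_kil ld1 mem_of_ann cv_dot dv_cv cv_smul cv_add
  cv_sub cv_eq_zero)
open H65 (Gr Quad Rk1 hq lin qd mkD bil lin_hom hq_hom pderiv_lin pderiv_qd)
open H2 (KrS mem_KrS)

variable {k K C Ω ι : Type} [Field k] [Field K] [Field C] [Field Ω] [Algebra k K] [Algebra C Ω]
  [Fintype ι] [DecidableEq ι]

section Pol

variable {q w : ι → K} {e : ι} {d : ι → Derivation k K K}

lemma bil_dot (w : ι → K) (d : ι → Derivation k K K) (x y : ι → K) :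
    bil w d x y = x ⬝ᵥ (of fun i j => d j (w i)) *ᵥ y := by
  simp only [bil, dotProduct, mulVec, Finset.mul_sum, of_apply]
  exact Finset.sum_congr rfl fun i _ => Finset.sum_congr rfl fun j _ => by ring

lemma quad_or [CharZero K] (G : Gr q e w d) (g : ι → K)
    (h : ∀ l m, ((qd fun i j => d j (d i (w l))) + .C (g l) * hq w d) * lin (fun j => d j (w m)) =
      ((qd fun i j => d j (d i (w m))) + .C (g m) * hq w d) * lin fun j => d j (w l)) :
    Quad k q ∨ Rk1 w d := by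
  by_cases h0 : hq w d = 0
  · exact Or.inr (Gr.rk1_of h0 G.sym)
  have h1 : mkD d X 0 (hq w d) = ∑ i, qd (fun j l => d l (d j (w i))) * X i := by
    rw [hq, map_sum]
    exact Finset.sum_congr rfl fun i _ => by simp [H65.mkD_lin, qd, mul_comm]
  have h2 : ∀ m, hq w d ∣ (mkD d X 0 (hq w d) + lin g * hq w d) * lin fun j => d j (w m) :=
    fun m => ⟨(qd fun i j => d j (d i (w m))) + .C (g m) * hq w d, by
      rw [h1, lin, Finset.sum_mul, ← Finset.sum_add_distrib, Finset.sum_mul]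
      nth_rewrite 2 [hq]
      rw [Finset.sum_mul]
      exact Finset.sum_congr rfl fun l _ => by linear_combination X l * h l m⟩
  obtain ⟨a, b, c, r, e1, e2⟩ := UniqueFactorizationMonoid.exists_reduced_factors _ h0
    (mkD d X 0 (hq w d) + lin g * hq w d)
  have h3 : ∀ m, a ∣ lin fun j => d j (w m) := fun m => r.dvd_of_dvd_mul_left (by
    have := h2 m
    rw [← e2, mul_assoc] at this
    nth_rewrite 1 [← e1] at this
    exact (mul_dvd_mul_iff_left (left_ne_zero_of_mul (e1 ▸ h0))).1 this)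
  by_cases u : IsUnit a
  · refine G.fub ((dvd_add_left (dvd_mul_left _ (lin g))).1 ?_)
    rw [← e2]
    nth_rewrite 1 [← e1]
    exact mul_dvd_mul_left c u.dvd
  obtain ⟨m, hm⟩ : ∃ m, (fun j => d j (w m)) ≠ 0 := by
    by_contra hn
    push Not at hn
    exact h0 (by simp [hq, show ∀ m j, d j (w m) = 0 from fun m => congrFun (hn m)])
  have p := H65.lin_prime hm
  have h4 : ∀ l, ∃ s, ∀ j, d j (w l) = s * d j (w m) := fun l => by
    obtain ⟨s, hs⟩ := H17.Cm.eq_C_mul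
      ((((p.irreducible.dvd_iff.1 (h3 m)).resolve_left u).dvd).trans (h3 l))
      ((lin_hom _).totalDegree_le.trans ((lin_hom _).totalDegree p.ne_zero).ge)
    refine ⟨s, fun j => ?_⟩
    have := congrArg (pderiv j) hs
    rw [← H65.lin_mul, pderiv_lin, pderiv_lin] at this
    exact C_injective _ _ this
  choose s hs using h4
  have h5 : ∀ x y, bil w d x y = (x ⬝ᵥ s) * ((fun j => d j (w m)) ⬝ᵥ y) := fun x y => by
    simp only [bil, dotProduct, Finset.sum_mul_sum]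
    exact Finset.sum_congr rfl fun i _ => Finset.sum_congr rfl fun j _ => by rw [hs i]; ring
  refine Or.inr fun x y => ?_
  rw [pow_two]
  nth_rewrite 2 [show bil w d x y = bil w d y x by
    rw [H65.bil_eq, H65.bil_eq, H65.bf_symm G.sym]]
  simp only [h5]
  ring

lemma rk1_mat [CharZero K] (G : Gr q e w d) (h : Rk1 w d) (i j l m : ι) : 2 * (d j (w i) * d m (w l)) =
    d l (w i) * d m (w j) + d l (w j) * d m (w i) := by
  have s : (of fun i j => d j (w i)).IsSymm := IsSymm.ext fun i j => G.sym j i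
  simp only [Rk1, bil_dot] at h
  generalize hA : (of fun i j => d j (w i)) = A at h s
  have h1 : ∀ a b c, a ⬝ᵥ A *ᵥ a * b ⬝ᵥ A *ᵥ c = a ⬝ᵥ A *ᵥ b * a ⬝ᵥ A *ᵥ c := fun a b c => by
    have := h a (b + c)
    simp only [mulVec_add, dotProduct_add, add_dotProduct, symm_dot s c b] at this
    linear_combination (this - h a b - h a c) / 2
  have := h1 (Pi.single i 1 + Pi.single j 1) (Pi.single l 1) (Pi.single m 1)
  have a1 := h1 (Pi.single i 1) (Pi.single l 1) (Pi.single m 1)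
  have a2 := h1 (Pi.single j 1) (Pi.single l 1) (Pi.single m 1)
  simp only [mulVec_add, dotProduct_add, add_dotProduct, single_dotProduct, mulVec_single_one,
    one_mul, ← hA, col_apply, of_apply, G.sym j i] at this a1 a2
  linear_combination this - a1 - a2

lemma gram (G : Gr q e w d) (h : ¬Rk1 w d) : ∃ z1 z2 W1 W2 : ι → K, w ⬝ᵥ z1 = 0 ∧ w ⬝ᵥ z2 = 0 ∧
    W1 = (w ⬝ᵥ w) • (of fun i j => d j (w i)) *ᵥ z1 - (w ⬝ᵥ (of fun i j => d j (w i)) *ᵥ z1) • w ∧
    W2 = (w ⬝ᵥ w) • (of fun i j => d j (w i)) *ᵥ z2 - (w ⬝ᵥ (of fun i j => d j (w i)) *ᵥ z2) • w ∧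
    (W1 ⬝ᵥ W1) * (W2 ⬝ᵥ W2) - (W1 ⬝ᵥ W2) ^ 2 ≠ 0 := by
  have s : (of fun i j => d j (w i)).IsSymm := IsSymm.ext fun i j => G.sym j i
  have a0 : (of fun i j => d j (w i)) *ᵥ Pi.single e 1 = 0 := funext fun i => by simp [G.de]
  have an : ∀ v : ι → K, v ⬝ᵥ v = 0 → v = 0 := fun v hv => G.ani v (by
    simpa [dotProduct, pow_two] using hv)
  have w0 : w ⬝ᵥ w ≠ 0 := fun h => G.w0 (an w h)
  simp only [Rk1, bil_dot, not_forall] at h
  generalize (of fun i j => d j (w i)) = A at h s a0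
  obtain ⟨a, b, h⟩ := h
  have h1 : ∀ a b : ι → K, (a - (w ⬝ᵥ a) • Pi.single e 1) ⬝ᵥ A *ᵥ (b - (w ⬝ᵥ b) • Pi.single e 1) =
      a ⬝ᵥ A *ᵥ b := fun a b => by
    rw [mulVec_sub, mulVec_smul, a0, sub_dotProduct, smul_dotProduct, smul_zero, sub_zero,
      symm_dot s (Pi.single e 1), a0]
    simp
  rw [← h1 a a, ← h1 b b, ← h1 a b] at h
  have h2 : ∀ a : ι → K, w ⬝ᵥ (a - (w ⬝ᵥ a) • Pi.single e 1) = 0 := fun a => by simp [G.we]
  refine ⟨_, _, _, _, h2 a, h2 b, rfl, rfl, fun h0 => h ?_⟩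
  have z1 := h2 a
  have z2 := h2 b
  generalize a - (w ⬝ᵥ a) • Pi.single e 1 = x at *
  generalize b - (w ⬝ᵥ b) • Pi.single e 1 = y at *
  have h3 : ∀ z u, w ⬝ᵥ z = 0 → z ⬝ᵥ ((w ⬝ᵥ w) • A *ᵥ u - (w ⬝ᵥ A *ᵥ u) • w) =
      (w ⬝ᵥ w) * (z ⬝ᵥ A *ᵥ u) := fun z u hz => by simp [dotProduct_comm z w, hz]
  have b1 := h3 x x z1
  have b2 := h3 x y z1
  have b3 := h3 y x z2
  have b4 := h3 y y z2
  rw [symm_dot s y x] at b3
  generalize (w ⬝ᵥ w) • A *ᵥ x - (w ⬝ᵥ A *ᵥ x) • w = W1 at *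
  generalize (w ⬝ᵥ w) • A *ᵥ y - (w ⬝ᵥ A *ᵥ y) • w = W2 at *
  have h4 := an ((W2 ⬝ᵥ W2) • W1 - (W1 ⬝ᵥ W2) • W2) (by
    simp only [dotProduct_sub, sub_dotProduct, dotProduct_smul, smul_dotProduct, smul_eq_mul,
      dotProduct_comm W2 W1]
    linear_combination (W2 ⬝ᵥ W2) * h0)
  have c1 := congrArg (x ⬝ᵥ ·) h4
  have c2 := congrArg (y ⬝ᵥ ·) h4
  simp only [dotProduct_sub, dotProduct_smul, smul_eq_mul, b1, b2, b3, b4, dotProduct_zero] at c1 c2
  by_cases h5 : W2 ⬝ᵥ W2 = 0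
  · rw [an W2 h5, dotProduct_zero, eq_comm, mul_eq_zero, or_iff_right w0] at b2 b4
    simp [b2, b4]
  · refine mul_left_cancel₀ (mul_ne_zero h5 w0) ?_
    linear_combination (y ⬝ᵥ A *ᵥ y) * c1 - (x ⬝ᵥ A *ᵥ y) * c2

lemma al (G : Gr q e w d) (φ : K →+* Ω) (hk : ∀ c, ∃ c', φ (algebraMap k K c) = algebraMap C Ω c')
    (θ : Der C Ω) : (φ ∘ w) ⬝ᵥ dv (φ ∘ q) θ = 0 ∧
      ∀ a, θ (φ a) = (fun j => φ (d j a)) ⬝ᵥ dv (φ ∘ q) θ := by
  have := G.along φ (θ.toLinearMap.toAddMonoidHom.comp φ.toAddMonoidHom) (fun a b => by simp)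
    fun c => by obtain ⟨c', h⟩ := hk c; simp [h]
  exact ⟨this.1, fun a => (this.2 a).trans (dotProduct_comm (dv (φ ∘ q) θ) _)⟩

lemma desc {L : Type} [Field L] [Algebra K L] {g : ι → L} {E0 E1 E2 : ι → ι → MvPolynomial ι K}
    (h : ∀ i j, MvPolynomial.map (algebraMap K L) (E0 i j) +
      .C (g i) * MvPolynomial.map (algebraMap K L) (E1 i j) -
      .C (g j) * MvPolynomial.map (algebraMap K L) (E2 i j) = 0) :
    ∃ g' : ι → K, ∀ i j, E0 i j + .C (g' i) * E1 i j - .C (g' j) * E2 i j = 0 := by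
  obtain ⟨f, hf⟩ := (Algebra.linearMap K L).exists_leftInverse_of_injective
    (LinearMap.ker_eq_bot.2 (algebraMap K L).injective)
  have f1 : ∀ a, f (algebraMap K L a) = a := LinearMap.congr_fun hf
  have f2 : ∀ b a, f (b * algebraMap K L a) = f b * a := fun b a => by
    rw [mul_comm, ← Algebra.smul_def, map_smul, smul_eq_mul, mul_comm]
  refine ⟨fun j => f (g j), fun i j => MvPolynomial.ext _ _ fun s => ?_⟩
  simpa only [coeff_sub, coeff_add, coeff_C_mul, coeff_map, map_sub, map_add, f1, f2, coeff_zero,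
    map_zero] using congrArg (fun P => f (coeff s P)) (h i j)

lemma r1_vec [CharZero Ω] {A : Matrix ι ι Ω} (s : A.IsSymm)
    (h1 : ∀ i j a b, 2 * (A i j * A a b) = A i a * A j b + A j a * A i b) (v x : ι → Ω) :
    (v ⬝ᵥ A *ᵥ v) • A *ᵥ x = (v ⬝ᵥ A *ᵥ x) • A *ᵥ v := by
  have h2 : ∀ a b, v ⬝ᵥ A *ᵥ v * A a b = (v ᵥ* A) a * (v ᵥ* A) b := fun a b => by
    have h3 : (v ᵥ* A) a * (v ᵥ* A) b = ∑ i, ∑ j, v i * v j * (A i a * A j b) := by
      simp only [vecMul, dotProduct, Finset.sum_mul_sum]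
      exact Finset.sum_congr rfl fun _ _ => Finset.sum_congr rfl fun _ _ => by ring
    have h4 := h3
    rw [Finset.sum_comm] at h4
    refine mul_left_cancel₀ two_ne_zero ?_
    rw [two_mul (_ * (v ᵥ* A) b)]
    nth_rewrite 1 [h3]
    rw [h4]
    simp only [mulVec, dotProduct, Finset.mul_sum, Finset.sum_mul, ← Finset.sum_add_distrib]
    exact Finset.sum_congr rfl fun i _ => Finset.sum_congr rfl fun j _ => by
      linear_combination v i * v j * h1 i j a b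
  ext a
  rw [Pi.smul_apply, Pi.smul_apply, smul_eq_mul, smul_eq_mul, dotProduct_mulVec v A x,
    mul_comm (_ ⬝ᵥ x)]
  have e : v ᵥ* A = A *ᵥ v := by rw [← vecMul_transpose A v, s.eq]
  rw [e] at h2 ⊢
  generalize v ⬝ᵥ A *ᵥ v = c at h2
  exact (smul_dotProduct c (A a) x).symm.trans ((congrArg (· ⬝ᵥ x) (funext (h2 a))).trans
    (smul_dotProduct ((A *ᵥ v) a) (A *ᵥ v) x))

lemma cubic [CharZero K] (G : Gr q e w d) {L : Type} [Field L] [Algebra K L] [Algebra L Ω]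
    [Algebra K Ω] [IsScalarTower K L Ω] {v : ι → Ω} (hv : ∀ P : MvPolynomial ι L,
      P.IsHomogeneous 3 → pderiv e P = 0 → aeval v P = 0 → P = 0) {g : ι → L} {ρ : Ω}
    (e3 : ∀ m, aeval v (qd fun i j => d j (d i (w m))) + algebraMap L Ω (g m) * aeval v (hq w d) =
      ρ * aeval v (lin fun j => d j (w m))) : Quad k q ∨ Rk1 w d := by
  have k1 : ∀ m, pderiv e (lin fun j => d j (w m)) = 0 := fun m => by simp [pderiv_lin, G.de]
  have k2 : pderiv e (hq w d) = 0 :=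
    (pderiv_qd (t := fun i j => d j (w i)) G.sym e).trans (by simp [G.dwe])
  have k3 : ∀ m, pderiv e (qd fun i j => d j (d i (w m))) = 0 := fun m => by
    rw [pderiv_qd fun i j => G.comm j i _]; simp [G.de]
  have k4 : ∀ m, (qd fun i j => d j (d i (w m))).IsHomogeneous 2 := fun t =>
    IsHomogeneous.sum _ _ _ fun i _ => (lin_hom _).mul (isHomogeneous_X K i)
  have k5 : ∀ m, (lin fun j => d j (w m)).IsHomogeneous 1 := fun m => lin_hom _
  have k6 := hq_hom w d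
  have k7 := quad_or G
  generalize hq w d = b at *
  obtain ⟨c, hc⟩ : ∃ c : ι → MvPolynomial ι K, ∀ m, (qd fun i j => d j (d i (w m))) = c m :=
    ⟨_, fun _ => rfl⟩
  obtain ⟨a, ha⟩ : ∃ a : ι → MvPolynomial ι K, ∀ m, (lin fun j => d j (w m)) = a m :=
    ⟨_, fun _ => rfl⟩
  simp only [hc, ha] at *
  obtain ⟨g', hg⟩ := desc (g := g) (E0 := fun i j => c i * a j - c j * a i)
    (E1 := fun _ j => b * a j) (E2 := fun i _ => b * a i) fun i j => hv _
      ((((((k4 _).mul (k5 _)).sub ((k4 _).mul (k5 _))).map _).add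
        (((k6.mul (k5 _)).map _).C_mul _)).sub (((k6.mul (k5 _)).map _).C_mul _))
      (by simp [pderiv_map, k1, k2, k3])
      (by
        simp only [map_sub, map_add, map_mul, aeval_map_algebraMap, aeval_C]
        linear_combination aeval v (a j) * e3 i - aeval v (a i) * e3 j)
  exact k7 g' fun i j => by linear_combination hg i j

/-- In the confocal case the mirror is a quadric. -/
lemma Cf.quad [CharZero Ω] (G : Gr q e w d) (φ : K →+* Ω)
    (hk : ∀ c, ∃ c', φ (algebraMap k K c) = algebraMap C Ω c') {p y n v : ι → Ω}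
    {A H : Matrix ι ι Ω} {α l : Ω} (hA : A = (of fun i j => d j (w i)).map φ)
    (h : Cf C (φ ∘ q) p y (φ ∘ w) n A H e) (o : One y (φ ∘ w) n v A e α l)
    (r : Rg C (φ ∘ q) n) : Quad k q := by
  have : CharZero K := φ.charZero
  obtain ⟨γ, g0, g1, g2⟩ := h.grd fun θ => h.kl o
  let L := KrS {θ : Der C Ω | dv (φ ∘ q) θ = 0}
  let _ := φ.toAlgebra
  let _ := (φ.codRestrict L fun a => mem_KrS.2 fun θ (hθ : _ = _) => by
    rw [(al G φ hk θ).2, hθ, dotProduct_zero]).toAlgebra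
  have : IsScalarTower K L Ω := .of_algebraMap_eq fun _ => rfl
  have e1 : ∀ m, aeval v (lin fun j => d j (w m)) = (A *ᵥ v) m := fun m => by
    rw [H65.aeval_lin, hA]; rfl
  have e2 : aeval v (hq w d) = v ⬝ᵥ A *ᵥ v := by
    simp only [hq, map_sum, map_mul, e1, aeval_X, dotProduct, mul_comm]
  refine (cubic G (L := L) (ρ := 2 * (α - n e)) (g := fun j => ⟨γ j / l, mem_KrS.2 fun θ hθ => by
    simp [Derivation.leibniz_div, h.kl o hθ, show θ (γ j) = 0 from congrFun (g2 θ hθ) j]⟩)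
    (fun P => h.genv o fun θ hθ c => mem_KrS.1 c.2 θ hθ) fun m => ?_).resolve_right
    fun hr => h.rk2 o r (r1_vec h.sA (fun i j a b => ?_) v)
  · obtain ⟨θ, hθ⟩ := h.ex (ξ := Pi.single m 1 - φ (w m) • Pi.single e 1) (by simp [G.we])
    have h1 := h.main o θ
    have h2 : A.map θ = of fun i j => φ (d j (d i (w m))) := by
      ext i j
      rw [hA, map_apply, map_apply, of_apply, (al G φ hk θ).2, hθ, of_apply, G.sym m i,
        G.comm j m]
      simp [G.de]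
    rw [h2, g1, hθ] at h1
    rw [e1, e2, h.vv o, o.Av]
    simp only [dotProduct_sub, dotProduct_smul, dotProduct_single, g0, mul_one, smul_eq_mul,
      mul_zero, sub_zero] at h1
    have h3 : aeval v (qd fun i j => d j (d i (w m))) =
        v ⬝ᵥ (of fun i j => φ (d j (d i (w m)))) *ᵥ v := by
      simp only [qd, map_sum, map_mul, H65.aeval_lin, aeval_X]
      exact Finset.sum_congr rfl fun _ _ => mul_comm _ _
    have l0 := o.l0
    change _ + γ m / l * _ = _ * (n m - n e * φ (w m))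
    rw [h3]
    field_simp
    linear_combination h1
  · simpa [hA, map_ofNat] using congrArg φ (rk1_mat G hr i j a b)

end Pol

section Wrp

variable [IsAlgClosed C] [CharZero Ω] {F G : MvPolynomial ι C} {q y n : ι → Ω}

/-- A warped pair from a point of the normal line that is independent of the hyperplane. -/
theorem warp_of (kq : ∀ W, aeval q W = 0 → F ∣ W) (ky : ∀ W, aeval y W = 0 ↔ G ∣ W)
    (dG : 2 ≤ G.totalDegree) (n0 : grad G y ≠ 0) {N : ι → Ω}
    {a b s t : Ω} (hF : grad F q = a • N) (hG : n = b • grad G y) (b0 : b ≠ 0) (s0 : s ≠ 0)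
    (h0 : cov n y ⬝ᵥ (s • vec N - t • hat q) = 0)
    (hi : ∀ D : Der C Ω, ∃ D' : Der C Ω, dv (cov n y) D' = 0 ∧
      dv (s • vec N - t • hat q) D' = dv (s • vec N - t • hat q) D) : Warp F G := by
  have e : cov n y = b • H17.Cm.tv G y := by
    ext (_ | i)
    · simp [cov, hG, H17.Cm.tv, H17.Cm.aeval_tg, dotProduct_comm]
    · exact congrFun hG i
  let U : Submodule C (Option ι → C) :=
    { carrier := {c | cov n y ⬝ᵥ cv Ω c = 0}
      add_mem' := fun {a b} (ha : _ = _) (hb : _ = _) => by simp [cv_add, ha, hb]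
      zero_mem' := by simp [cv_eq_zero.2 rfl]
      smul_mem' := fun c a (ha : _ = _) => by simp [cv_smul, ha] }
  let D : Submodule C (Option ι → C) :=
    { carrier := {K | ∀ c ∈ U, c ⬝ᵥ K = 0}
      add_mem' := fun {a b} ha hb c hc => by simp [ha c hc, hb c hc]
      zero_mem' := fun c _ => by simp
      smul_mem' := fun s a ha c hc => by simp [ha c hc] }
  have h1 : ∀ K ∈ D, s * (N ⬝ᵥ sp (cv Ω K)) = t * (hat q ⬝ᵥ cv Ω K) := fun K hK => by
    have := ld1 hi h0 (K := cv Ω K) fun c hc => by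
      rw [cv_dot, dotProduct_comm, hK c hc, map_zero]
    rw [dotProduct_comm, sub_dotProduct, smul_dotProduct, smul_dotProduct, vec_dot] at this
    exact sub_eq_zero.1 this
  refine Warp.of_pts D (H17.Cm.three_le ky dG n0 fun f c (hc : _ = _) => ?_) kq
    (fun W => (ky W).1) (fun K hK K' hK' => ?_) fun Y hY => ?_
  · rw [e, smul_dotProduct, smul_eq_mul, mul_eq_zero, or_iff_right b0] at hc
    rw [dotProduct_comm, ← H17.Cm.dual_dot]
    exact (congrArg f hc).trans (map_zero f)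
  · change (hat q ⬝ᵥ cv Ω K) * (_ ⬝ᵥ sp (cv Ω K')) = (hat q ⬝ᵥ cv Ω K') * (_ ⬝ᵥ sp (cv Ω K))
    rw [hF, smul_dotProduct, smul_dotProduct, smul_eq_mul, smul_eq_mul]
    refine mul_left_cancel₀ s0 ?_
    linear_combination a * (hat q ⬝ᵥ cv Ω K) * h1 K' hK' - a * (hat q ⬝ᵥ cv Ω K') * h1 K hK
  · have : cov n y ⬝ᵥ cv Ω Y = 0 := mem_of_ann (U := U) fun v hv =>
      (dotProduct_comm _ _).trans (hY v hv)
    change _ ⬝ᵥ (sp (cv Ω Y) - cv Ω Y none • y) = 0
    rw [dotProduct, Fintype.sum_option] at this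
    change -(n ⬝ᵥ y) * cv Ω Y none + n ⬝ᵥ sp (cv Ω Y) = 0 at this
    rw [hG, smul_dotProduct, smul_dotProduct, smul_eq_mul, smul_eq_mul] at this
    rw [dotProduct_sub, dotProduct_smul, smul_eq_mul]
    refine mul_left_cancel₀ b0 ?_
    linear_combination this

/-- Rigidity for one component of the tangent complex. -/
theorem ber {K' : Type} [Field K'] [Algebra k K'] [Algebra k C] {p n' : ι → Ω} {a b : Ω}
    {q0 w : ι → K} {p0 w' : ι → K'} {e e' : ι} {d : ι → Derivation k K K}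
    {d' : ι → Derivation k K' K'} (dF : 2 ≤ F.totalDegree) (dG : 2 ≤ G.totalDegree)
    (hq : ∀ W, aeval q W = 0 ↔ F ∣ W) (hp : ∀ W, aeval p W = 0 ↔ G ∣ W)
    (N0 : grad F q ≠ 0) (n0 : grad G p ≠ 0) (S : Gr q0 e w d) (T : Gr p0 e' w' d')
    (φ : K →+* Ω) (ψ : K' →+* Ω)
    (hφ : ∀ c, φ (algebraMap k K c) = algebraMap C Ω (algebraMap k C c))
    (hψ : ∀ c, ψ (algebraMap k K' c) = algebraMap C Ω (algebraMap k C c))
    (eq : q = φ ∘ q0) (ep : p = ψ ∘ p0) (hr : ¬Rk1 w' d') (hy : y = p - q)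
    (tan : grad G p ⬝ᵥ y = 0) (gen : ∀ ξ ζ, grad G p ⬝ᵥ ζ = 0 →
      ∃ (θ : Der C Ω) (s t : Ω), dv q θ = ξ + s • y ∧ dv p θ = ζ + t • y)
    (b0 : b ≠ 0) (n1 : n' ≠ 0) (h1 : n' ⬝ᵥ rf (grad F q) y = 0)
    (h2 : ∀ θ : Der C Ω, n' ⬝ᵥ (a • dv q θ + b • dv (rf (grad F q) y) θ) = 0) :
    Conf F G ∨ Warp F G ∨ Warp G F := by
  have : CharZero C := (algebraMap C Ω).charZero
  have A1 := al S φ fun c => ⟨_, hφ c⟩
  have A2 := al T ψ fun c => ⟨_, hψ c⟩
  rw [← eq] at A1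
  rw [← ep] at A2
  have pr : ∀ {F : MvPolynomial ι C} {q N : ι → Ω} {e : ι}, (∀ W, aeval q W = 0 ↔ F ∣ W) →
      N e = 1 → (∀ θ : Der C Ω, N ⬝ᵥ dv q θ = 0) → ∃ s : Ω, s ≠ 0 ∧ N = s • grad F q :=
    fun {F q N e} hq he h => by
      obtain ⟨s, hs⟩ := par1 (T := grad F q) (K := N) fun w hw => by
        obtain ⟨D, hD⟩ := H65.ex_tan hq hw
        rw [← h D, show dv q D = w from funext hD]
      exact ⟨s, fun h0 => by simp [hs, h0] at he, hs⟩
  have we : (φ ∘ w) e = 1 := by simp [S.we]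
  obtain ⟨s, s0, hs⟩ := pr hq we fun θ => (A1 θ).1
  obtain ⟨t, t0, ht⟩ := pr (N := ψ ∘ w') (e := e') hp (by simp [T.we]) fun θ => (A2 θ).1
  have hs' : grad F q = s⁻¹ • (φ ∘ w) := by rw [hs, inv_smul_smul₀ s0]
  have ht' : grad G p = t⁻¹ • (ψ ∘ w') := by rw [ht, inv_smul_smul₀ t0]
  have ny : (ψ ∘ w') ⬝ᵥ y = 0 := by simp [ht, tan]
  have dn : ∀ θ : Der C Ω, dv (ψ ∘ w') θ = (of fun i j => d' j (w' i)).map ψ *ᵥ dv p θ :=
    fun θ => funext fun i => (A2 θ).2 (w' i)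
  have sH : ((of fun i j => d' j (w' i)).map ψ).IsSymm :=
    (IsSymm.ext fun i j => T.sym j i).map ψ
  have nn : (ψ ∘ w') ⬝ᵥ (ψ ∘ w') ≠ 0 := by
    simpa [dotProduct, pow_two] using (map_ne_zero ψ).2 T.nw
  have Ny : (φ ∘ w) ⬝ᵥ y ≠ 0 := fun h0 => by
    obtain ⟨θ, s, -, a1, -⟩ := gen (Pi.single e 1) 0 (by simp)
    simpa [a1, h0, S.we] using (A1 θ).1
  have k0 : ∀ θ : Der C Ω, y ⬝ᵥ (of fun i j => d' j (w' i)).map ψ *ᵥ dv p θ =
      (ψ ∘ w') ⬝ᵥ dv q θ := fun θ => by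
    have := dv_dot (ψ ∘ w') y θ
    rw [ny, map_zero, dn, dotProduct_comm] at this
    nth_rewrite 2 [hy] at this
    rw [dv_sub, dotProduct_sub, (A2 θ).1] at this
    linear_combination -this
  have yy : y ⬝ᵥ (of fun i j => d' j (w' i)).map ψ *ᵥ y ≠ 0 := fun h0 => by
    obtain ⟨θ, s, t, a1, a2⟩ := gen (ψ ∘ w') 0 (by simp)
    exact nn (by simpa [a1, a2, mulVec_smul, h0, ny] using (k0 θ).symm)
  have h : Cf C q p y (φ ∘ w) (ψ ∘ w') ((of fun i j => d j (w i)).map φ)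
      ((of fun i j => d' j (w' i)).map ψ) e :=
    ⟨hy, (IsSymm.ext fun i j => S.sym j i).map φ, sH, fun θ => funext fun i => (A1 θ).2 (w i), dn,
      fun θ => (A1 θ).1, fun θ => (A2 θ).1, fun θ h0 => by
        ext i j; simp [(A1 θ).2, h0],
      by simpa [dotProduct, pow_two] using (map_ne_zero φ).2 S.nw, nn, we, Ny, ny, yy,
      fun ξ ζ a1 a2 a3 => by
        obtain ⟨θ, s, t, b1, b2⟩ := gen ξ ζ (by simp [ht', a2])
        have s0 : s = 0 := by simpa [b1, a1, Ny] using (A1 θ).1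
        have t0 : t = 0 := by simpa [b1, b2, s0, mulVec_add, mulVec_smul, a3, yy] using k0 θ
        exact ⟨θ, by simpa [s0] using b1, by simpa [t0] using b2⟩⟩
  have r : Rg C q (ψ ∘ w') := by
    obtain ⟨z1, z2, W1, W2, a1, a2, a3, a4, a5⟩ := gram T hr
    have m1 : ∀ (c : K') (x z : ι → K') (c' : K'), ψ ∘ (c • x - c' • z) =
        ψ c • ψ ∘ x - ψ c' • ψ ∘ z := fun c x z c' => by ext; simp
    have m2 : ∀ (M : Matrix ι ι K') x, ψ ∘ (M *ᵥ x) = M.map ψ *ᵥ ψ ∘ x := fun M x =>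
      funext (ψ.map_mulVec M x)
    have m3 : ∀ (W : ι → K') (θ : Der C Ω), dv p θ = 0 → dv (ψ ∘ W) θ = 0 := fun W θ h0 =>
      funext fun i => by simp [(A2 θ).2, h0]
    exact h.rg (ζ1 := ψ ∘ z1) (ζ2 := ψ ∘ z2) (by rw [← ψ.map_dotProduct, a1, map_zero])
      (by rw [← ψ.map_dotProduct, a2, map_zero])
      (by rw [a3, m1, ψ.map_dotProduct, ψ.map_dotProduct, m2])
      (by rw [a4, m1, ψ.map_dotProduct, ψ.map_dotProduct, m2]) (m3 W1) (m3 W2)
      (by simpa only [map_sub, map_mul, map_pow, ψ.map_dotProduct] using (map_ne_zero ψ).2 a5)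
  rw [hs', H17.Cm.smul_rf (inv_ne_zero s0)] at h1 h2
  obtain ⟨μ, hμ⟩ := h.mirror b0 n1 h1 h2
  by_cases μ0 : μ = 0
  · obtain ⟨κ, a1, a2⟩ := h.three (by simpa only [μ0, zero_mul] using hμ)
    rw [← one_smul Ω (vec (ψ ∘ w'))] at a1 a2
    exact .inr (.inr (warp_of (fun W => (hp W).1) hq dF N0 ht' hs s0 one_ne_zero a1 a2))
  by_cases c0 : (ψ ∘ w') ⬝ᵥ (φ ∘ w) = 0
  · obtain ⟨κ, a0, a1, a2⟩ := h.two r c0 (μ := -μ / ((φ ∘ w) ⬝ᵥ y))
      (div_ne_zero (neg_ne_zero.2 μ0) Ny) fun ξ hξ => by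
        have := hμ ξ hξ
        simp only [c0, zero_smul, zero_sub, dotProduct_neg, dotProduct_smul, smul_eq_mul] at this
        field_simp
        linear_combination -this
    rw [← one_smul Ω (hat q)] at a1 a2
    exact .inr (.inl (warp_of (fun W => (hq W).1) hp dG n0 hs' ht t0 a0 a1 a2))
  obtain ⟨v, α, l, o⟩ := h.one c0 μ0 hμ
  obtain ⟨P, P0, P1, P2⟩ := Cf.quad S φ (fun c => ⟨_, hφ c⟩) rfl (eq ▸ h) o (eq ▸ r)
  have P3 : F ∣ MvPolynomial.map (algebraMap k C) P := (hq _).1 (by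
    have := congrArg φ P2
    rw [map_zero, map_aeval, show φ.comp (algebraMap k K) =
      (algebraMap C Ω).comp (algebraMap k C) from RingHom.ext hφ] at this
    rw [aeval_def, eval₂_map, eq]
    exact this)
  obtain ⟨B, sB, rfl⟩ := H32.ex_quad ((totalDegree_le_of_dvd_of_isDomain P3 fun h0 =>
    P0 (map_injective _ (algebraMap k C).injective (h0.trans (map_zero _).symm))).trans
    ((Finset.sup_mono (support_map_subset _ _)).trans P1))
  refine .inl (h.conf o r (fun W => (hq W).1) (fun W => (hp W).1) dF dG sB (ρ := s⁻¹ / 2)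
    (div_ne_zero (inv_ne_zero s0) two_ne_zero) ?_)
  have z := (hq _).2 dvd_rfl
  rw [H17.Cm.aeval_quad, hat_dot] at z
  rw [H17.Cm.grad_quad sB] at hs'
  have z1 : sp (B.map (algebraMap C Ω) *ᵥ hat q) = (s⁻¹ / 2) • (φ ∘ w) := by
    rw [div_eq_inv_mul, mul_smul, ← hs', inv_smul_smul₀ two_ne_zero]
  ext (_ | i)
  · rw [z1, dotProduct_smul, dotProduct_comm] at z
    exact (eq_neg_of_add_eq_zero_left z).trans (mul_neg _ _).symm
  · exact congrFun z1 i

end Wrp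

end Pool.Agent.MP_249f74_an.H20
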