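import Pool.Agent.MP_249f74_an.H74.Lin
import Pool.Agent.MP_249f74_an.H17.CmBer

/-!
The mirror equation of a tangent complex that is invariant under one reflection.
-/

open Matrix hiding vec

set_option linter.unusedSectionVars false

namespace Pool.Agent.MP_249f74_an.H20

open H17 (Der)
open H17.Cm (rf hat vec sp hat_dot vec_dot dot_rf_comm rf_rf rf_of_dot)
open H90 (dv dv_apply dv_dot dv_add dv_sub dv_smul dv_br dv_zero dv_single der_two)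
open H74 (par1 par2 eq_zero_of_dot symm_dot)

variable {C Ω ι : Type} [Field C] [Field Ω] [Algebra C Ω] [Fintype ι] [DecidableEq ι]

lemma dv_mul (A : Matrix ι ι Ω) (x : ι → Ω) (θ : Der C Ω) :
    dv (A *ᵥ x) θ = A.map θ *ᵥ x + A *ᵥ dv x θ := funext fun i => dv_dot (A i) x θ

/-- The hyperplane through `q` with normal `N`. -/
def cov (N q : ι → Ω) : Option ι → Ω := fun o => o.elim (-(N ⬝ᵥ q)) N

section Cov

@[simp] lemma sp_cov (N q : ι → Ω) : sp (cov N q) = N := rfl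

lemma cov_hat (N q x : ι → Ω) : cov N q ⬝ᵥ hat x = N ⬝ᵥ (x - q) := by
  rw [dotProduct_comm, hat_dot, sp_cov, dotProduct_sub, dotProduct_comm x]
  simp [cov]; ring

lemma cov_vec (N q x : ι → Ω) : cov N q ⬝ᵥ vec x = N ⬝ᵥ x := by
  rw [dotProduct_comm, vec_dot, sp_cov, dotProduct_comm]

lemma dv_cov {N q : ι → Ω} {θ : Der C Ω} (h : N ⬝ᵥ dv q θ = 0) :
    dv (cov N q) θ = cov (dv N θ) q := by
  ext (_ | i)
  · simp [cov, dv_dot, h]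
  · rfl

lemma dv_hat (q : ι → Ω) (θ : Der C Ω) : dv (hat q) θ = vec (dv q θ) := by
  ext (_ | i) <;> simp [hat, vec]

lemma dv_vec (q : ι → Ω) (θ : Der C Ω) : dv (vec q) θ = vec (dv q θ) := by
  ext (_ | i) <;> simp [vec]

@[simp] lemma vec_zero : vec (0 : ι → Ω) = 0 := by ext (_ | i) <;> rfl

end Cov

variable (C) in
/-- A line through the point `q` of one hypersurface that touches another one at `p`. -/
structure Cf (q p y N n : ι → Ω) (A H : Matrix ι ι Ω) (e : ι) : Prop where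
  hy : y = p - q
  sA : A.IsSymm
  sH : H.IsSymm
  dN : ∀ θ : Der C Ω, dv N θ = A *ᵥ dv q θ
  dn : ∀ θ : Der C Ω, dv n θ = H *ᵥ dv p θ
  tq : ∀ θ : Der C Ω, N ⬝ᵥ dv q θ = 0
  tp : ∀ θ : Der C Ω, n ⬝ᵥ dv p θ = 0
  kA : ∀ θ : Der C Ω, dv q θ = 0 → A.map θ = 0
  NN : N ⬝ᵥ N ≠ 0
  nn : n ⬝ᵥ n ≠ 0
  Ne : N e = 1
  Ny : N ⬝ᵥ y ≠ 0
  ny : n ⬝ᵥ y = 0
  yy : y ⬝ᵥ H *ᵥ y ≠ 0
  gen : ∀ ξ ζ, N ⬝ᵥ ξ = 0 → n ⬝ᵥ ζ = 0 → y ⬝ᵥ H *ᵥ ζ = n ⬝ᵥ ξ →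
    ∃ θ : Der C Ω, dv q θ = ξ ∧ dv p θ = ζ

variable (C) in
/-- The normal `n` moves non isotropically when `q` is fixed. -/
def Rg (q n : ι → Ω) : Prop :=
  ∃ θ : Der C Ω, dv q θ = 0 ∧ (n ⬝ᵥ n) * (dv n θ ⬝ᵥ dv n θ) - (n ⬝ᵥ dv n θ) ^ 2 ≠ 0

namespace Cf

variable {q p y N n : ι → Ω} {A H : Matrix ι ι Ω} {e : ι} (h : Cf C q p y N n A H e)
  {θ : Der C Ω}
include h

lemma dy (θ : Der C Ω) : dv y θ = dv p θ - dv q θ := by rw [h.hy, dv_sub]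

lemma kN (h0 : dv q θ = 0) : dv N θ = 0 := by rw [h.dN, h0, mulVec_zero]

lemma kn (h0 : dv p θ = 0) : dv n θ = 0 := by rw [h.dn, h0, mulVec_zero]

lemma dny (θ : Der C Ω) : dv n θ ⬝ᵥ y = n ⬝ᵥ dv q θ := by
  have := dv_dot n y θ
  rw [h.ny, map_zero, h.dy, dotProduct_sub, h.tp] at this
  linear_combination -this

lemma ex {ξ : ι → Ω} (h0 : N ⬝ᵥ ξ = 0) : ∃ θ : Der C Ω, dv q θ = ξ :=
  (h.gen ξ ((n ⬝ᵥ ξ / (y ⬝ᵥ H *ᵥ y)) • y) h0 (by simp [h.ny])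
    (by simp [mulVec_smul, h.yy])).imp fun _ => And.left

lemma exq {ζ : ι → Ω} (h0 : n ⬝ᵥ ζ = 0) :
    ∃ (θ : Der C Ω) (a : Ω), dv q θ = 0 ∧ dv p θ = ζ + a • y := by
  obtain ⟨θ, h1⟩ := h.gen 0 (ζ + (-(y ⬝ᵥ H *ᵥ ζ / (y ⬝ᵥ H *ᵥ y))) • y) (by simp)
    (by simp [h.ny, h0]) (by simp [mulVec_add, mulVec_neg, mulVec_smul, h.yy])
  exact ⟨θ, _, h1⟩

lemma exp {η : ι → Ω} (h0 : n ⬝ᵥ η = 0) :
    ∃ (θ : Der C Ω) (r : Ω), dv p θ = 0 ∧ dv y θ = η + r • y := by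
  obtain ⟨θ, h1, h2⟩ := h.gen (-(η + (-(N ⬝ᵥ η / (N ⬝ᵥ y))) • y)) 0 (by simp [h.Ny])
    (by simp) (by simp [h.ny, h0])
  exact ⟨θ, _, h2, by rw [h.dy, h1, h2, zero_sub, neg_neg]⟩

lemma Ae (θ : Der C Ω) : (A *ᵥ dv q θ) e = 0 := by rw [← h.dN, dv_apply, h.Ne]; simp

lemma par {ξ z : ι → Ω} (h0 : N ⬝ᵥ ξ = 0) (h1 : ∀ w, N ⬝ᵥ w = 0 → (A *ᵥ ξ - z) ⬝ᵥ w = 0) :
    A *ᵥ ξ = z - z e • N := by
  obtain ⟨s, hs⟩ := par1 h1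
  obtain ⟨θ, rfl⟩ := h.ex h0
  have := congrFun hs e
  rw [Pi.sub_apply, h.Ae, Pi.smul_apply, h.Ne, smul_eq_mul, mul_one, zero_sub] at this
  rw [← this, neg_smul] at hs
  rw [← sub_add_cancel (A *ᵥ dv q θ) z, hs]; abel

/-- The equation of Codazzi. -/
lemma cod (θ φ : Der C Ω) : A.map θ *ᵥ dv q φ = A.map φ *ᵥ dv q θ := by
  have := dv_br N θ φ
  rw [h.dN, h.dN φ, h.dN θ, dv_mul, dv_mul, dv_br, mulVec_sub] at this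
  linear_combination (norm := abel) -this

lemma sd (θ : Der C Ω) : (A.map θ).IsSymm := h.sA.map _

/-- The mirror equation. -/
lemma mirror [CharZero Ω] {n' : ι → Ω} {a t : Ω} (ht : t ≠ 0) (n0 : n' ≠ 0)
    (h1 : n' ⬝ᵥ rf N y = 0) (h2 : ∀ θ : Der C Ω, n' ⬝ᵥ (a • dv q θ + t • dv (rf N y) θ) = 0) :
    ∃ μ : Ω, ∀ ξ, N ⬝ᵥ ξ = 0 → A *ᵥ ξ ⬝ᵥ ((n ⬝ᵥ N) • y - (N ⬝ᵥ y) • n) = μ * (n ⬝ᵥ ξ) := by
  have NN := h.NN
  have d1 : ∀ θ : Der C Ω, dv (rf N y) θ = dv y θ -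
      θ (2 * (N ⬝ᵥ y) / (N ⬝ᵥ N)) • N - (2 * (N ⬝ᵥ y) / (N ⬝ᵥ N)) • dv N θ := fun θ => by
    rw [rf, dv_sub, dv_smul, sub_sub]
  have d2 : ∀ θ : Der C Ω, θ (2 * (N ⬝ᵥ y) / (N ⬝ᵥ N)) = 2 * (dv N θ ⬝ᵥ y + N ⬝ᵥ dv y θ) / (N ⬝ᵥ N)
      - 4 * (N ⬝ᵥ y) * (N ⬝ᵥ dv N θ) / (N ⬝ᵥ N) ^ 2 := fun θ => by
    rw [Derivation.leibniz_div, Derivation.leibniz, dv_dot, dv_dot, der_two,
      dotProduct_comm (dv N θ) N]
    simp only [smul_eq_mul]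
    field_simp
    ring
  obtain ⟨s, hs⟩ := par1 (T := n) (K := rf N n') fun w hw => by
    obtain ⟨θ, b, a1, a2⟩ := h.exq hw
    have := h2 θ
    rw [d1, d2, h.dy, a1, a2, h.kN a1] at this
    rw [dot_rf_comm]
    simp only [rf, dotProduct_add, dotProduct_sub, dotProduct_smul, smul_eq_mul, sub_zero,
      dotProduct_zero, zero_dotProduct, smul_zero, mul_zero, zero_div, zero_add] at this h1 ⊢
    refine mul_left_cancel₀ ht ?_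
    linear_combination this - t * b * h1
  have s0 : s ≠ 0 := fun h0 => n0 (by rw [← rf_rf NN n', hs, h0, zero_smul]; simp [rf])
  refine ⟨(t - a) * (N ⬝ᵥ N) / (2 * t), fun ξ h0 => ?_⟩
  obtain ⟨θ, rfl⟩ := h.ex h0
  have h3 := h2 θ
  have h4 := h.tp θ
  rw [d1, d2, ← rf_rf NN n', hs, H17.Cm.rf_smul, smul_dotProduct, smul_eq_mul, mul_eq_zero,
    or_iff_right s0, h.dy] at h3
  rw [← h.dN]
  simp only [rf, dotProduct_add, dotProduct_sub, dotProduct_smul, smul_eq_mul, sub_dotProduct,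
    smul_dotProduct, h0, h4, dotProduct_comm N n, dotProduct_comm (dv N θ) n] at h3 ⊢
  field_simp at h3 ⊢
  refine mul_left_cancel₀ NN ?_
  linear_combination h3

lemma nz (hθ : dv q θ = 0) (g : (n ⬝ᵥ n) * (dv n θ ⬝ᵥ dv n θ) - (n ⬝ᵥ dv n θ) ^ 2 ≠ 0)
    {a b s : Ω} (h0 : a • dv n θ + b • n + s • N = 0) : a = 0 := by
  have h1 := congrArg (· ⬝ᵥ y) h0
  simp only [add_dotProduct, smul_dotProduct, h.dny, hθ, h.ny, smul_eq_mul, dotProduct_zero,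
    mul_zero, zero_add, zero_dotProduct, mul_eq_zero, h.Ny, or_false] at h1
  rw [h1, zero_smul, add_zero] at h0
  have h2 := congrArg (n ⬝ᵥ ·) h0
  have h3 := congrArg (dv n θ ⬝ᵥ ·) h0
  simp only [dotProduct_add, dotProduct_smul, smul_eq_mul, dotProduct_zero,
    dotProduct_comm (dv n θ) n] at h2 h3
  refine (mul_eq_zero.1 ?_).resolve_right g
  linear_combination (n ⬝ᵥ n) * h3 - (n ⬝ᵥ dv n θ) * h2

/-- Linear forms that depend on `p` only. -/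
lemma lin0 {W : ι → Ω} (hW : ∀ θ : Der C Ω, dv p θ = 0 → dv W θ = 0) (h0 : y ⬝ᵥ W = 0)
    {η : ι → Ω} (h1 : n ⬝ᵥ η = 0) : η ⬝ᵥ W = 0 := by
  obtain ⟨θ, r, a1, a2⟩ := h.exp h1
  have := dv_dot y W θ
  rw [h0, map_zero, hW θ a1, a2] at this
  simpa [h0] using this.symm

lemma rg [CharZero Ω] {ζ1 ζ2 W1 W2 : ι → Ω} (z1 : n ⬝ᵥ ζ1 = 0) (z2 : n ⬝ᵥ ζ2 = 0)
    (e1 : W1 = (n ⬝ᵥ n) • H *ᵥ ζ1 - (n ⬝ᵥ H *ᵥ ζ1) • n)
    (e2 : W2 = (n ⬝ᵥ n) • H *ᵥ ζ2 - (n ⬝ᵥ H *ᵥ ζ2) • n)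
    (k1 : ∀ θ : Der C Ω, dv p θ = 0 → dv W1 θ = 0) (k2 : ∀ θ : Der C Ω, dv p θ = 0 → dv W2 θ = 0)
    (g : (W1 ⬝ᵥ W1) * (W2 ⬝ᵥ W2) - (W1 ⬝ᵥ W2) ^ 2 ≠ 0) : Rg C q n := by
  obtain ⟨θ, a1, a2⟩ := h.gen 0 ((y ⬝ᵥ H *ᵥ ζ2) • ζ1 - (y ⬝ᵥ H *ᵥ ζ1) • ζ2) (by simp)
    (by simp [z1, z2]) (by simp [mulVec_sub, mulVec_smul, mul_comm])
  refine ⟨θ, a1, fun h0 => ?_⟩
  have w1 : n ⬝ᵥ W1 = 0 := by simp [e1, mul_comm]
  have w2 : n ⬝ᵥ W2 = 0 := by simp [e2, mul_comm]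
  have Q : (y ⬝ᵥ W2) ^ 2 * (W1 ⬝ᵥ W1) - 2 * (y ⬝ᵥ W2) * (y ⬝ᵥ W1) * (W1 ⬝ᵥ W2) +
      (y ⬝ᵥ W1) ^ 2 * (W2 ⬝ᵥ W2) = 0 := by
    rw [h.dn, a2, mulVec_sub, mulVec_smul, mulVec_smul] at h0
    rw [e1, e2]
    generalize H *ᵥ ζ1 = u1 at *
    generalize H *ᵥ ζ2 = u2 at *
    simp only [dotProduct_sub, sub_dotProduct, dotProduct_smul, smul_dotProduct, smul_eq_mul,
      dotProduct_comm y n, h.ny, dotProduct_comm u1 n, dotProduct_comm u2 n,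
      dotProduct_comm u2 u1] at h0 ⊢
    linear_combination (n ⬝ᵥ n) ^ 3 * h0
  have Q2 : ∀ η, n ⬝ᵥ η = 0 → (y ⬝ᵥ W2) * (η ⬝ᵥ W2) * (W1 ⬝ᵥ W1) - ((y ⬝ᵥ W2) * (η ⬝ᵥ W1) +
      (η ⬝ᵥ W2) * (y ⬝ᵥ W1)) * (W1 ⬝ᵥ W2) + (y ⬝ᵥ W1) * (η ⬝ᵥ W1) * (W2 ⬝ᵥ W2) = 0 := fun η hη => by
    obtain ⟨φ, r, b1, b2⟩ := h.exp hη
    have := congrArg φ Q
    simp only [map_add, map_sub, map_zero, Derivation.leibniz, pow_two, dv_dot, k1 φ b1, k2 φ b1,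
      b2, der_two, smul_eq_mul, dotProduct_zero, zero_dotProduct, add_dotProduct,
      smul_dotProduct] at this
    linear_combination this / 2 - r * Q
  have q1 := Q2 _ w1
  have q2 := Q2 _ w2
  rw [dotProduct_comm W2 W1] at q2
  have y1 : y ⬝ᵥ W1 = 0 := (mul_eq_zero.1 (by linear_combination q1)).resolve_right g
  have y2 : y ⬝ᵥ W2 = 0 := (mul_eq_zero.1 (by linear_combination q2)).resolve_right g
  exact g (by rw [h.lin0 k1 y1 w1, h.lin0 k2 y2 w1]; ring)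

/-- The gradient of a function of `q`. -/
lemma grd {f : Ω} (hf : ∀ θ : Der C Ω, dv q θ = 0 → θ f = 0) : ∃ γ : ι → Ω, γ e = 0 ∧
    (∀ θ : Der C Ω, θ f = γ ⬝ᵥ dv q θ) ∧ ∀ θ : Der C Ω, dv q θ = 0 → dv γ θ = 0 := by
  classical
  choose Z hZ using fun j => h.ex (ξ := Pi.single j 1 - N j • Pi.single e 1) (by simp [h.Ne])
  refine ⟨fun j => Z j f, hf _ (by simp [hZ, h.Ne]), fun θ => ?_, fun θ h0 => funext fun j => ?_⟩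
  · have := hf (θ - ∑ j, θ (q j) • Z j) (by
      have h1 := h.tq θ
      rw [map_sub, map_sum]
      ext i
      simp only [dotProduct, dv_apply, mul_comm (N _)] at h1
      simp [hZ, Pi.single_apply, mul_sub, h1])
    rw [Derivation.sub_apply, H96.sum_apply, sub_eq_zero] at this
    simpa [dotProduct, mul_comm] using this
  · have := hf ⁅θ, Z j⁆ (by
      rw [dv_br, h0, hZ, dv_sub, dv_smul, dv_single, dv_single, dv_zero,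
        show θ (N j) = 0 from congrFun (h.kN h0) j]
      simp)
    simpa [H96.br_apply, hf θ h0] using this

/-- A function of `q` and of `p` is constant. -/
lemma const (r : Rg C q n) {f : Ω} (hq : ∀ θ : Der C Ω, dv q θ = 0 → θ f = 0)
    (hp : ∀ θ : Der C Ω, dv p θ = 0 → θ f = 0) (θ : Der C Ω) : θ f = 0 := by
  obtain ⟨γ, -, g1, g2⟩ := h.grd hq
  obtain ⟨a, b, hab⟩ := par2 (T := n) (H := N) (K := γ) fun w w1 w2 => by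
    obtain ⟨φ, rfl, a2⟩ := h.gen w 0 w2 (by simp) (by simp [w1])
    rw [← g1, hp φ a2]
  obtain ⟨φ, a1, a2⟩ := r
  have := g2 φ a1
  rw [hab, dv_add, dv_smul, dv_smul, h.kN a1, smul_zero, add_zero, add_comm (_ • n)] at this
  rw [g1, hab, h.nz a1 a2 this]
  simp [h.tq]

/-- The case of a focal line. -/
lemma three (h0 : ∀ ξ, N ⬝ᵥ ξ = 0 → A *ᵥ ξ ⬝ᵥ ((n ⬝ᵥ N) • y - (N ⬝ᵥ y) • n) = 0) : ∃ κ : Ω,
    cov N q ⬝ᵥ (vec n - κ • hat p) = 0 ∧ ∀ D : Der C Ω, ∃ D' : Der C Ω, dv (cov N q) D' = 0 ∧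
      dv (vec n - κ • hat p) D' = dv (vec n - κ • hat p) D := by
  have m0 := h.Ny
  obtain ⟨κ, hκ⟩ : ∃ κ, n ⬝ᵥ N = κ * (N ⬝ᵥ y) := ⟨_, (div_mul_cancel₀ _ m0).symm⟩
  have h1 : ∀ M : ι → Ω, cov M q ⬝ᵥ (vec n - κ • hat p) = M ⬝ᵥ (n - κ • y) := fun M => by
    simp [cov_vec, cov_hat, h.hy]
  have h2 : N ⬝ᵥ (n - κ • y) = 0 := by simp [dotProduct_comm N n, hκ]
  have h3 : ∀ ξ, N ⬝ᵥ ξ = 0 → A *ᵥ ξ ⬝ᵥ (n - κ • y) = 0 := fun ξ hξ => mul_left_cancel₀ m0 (by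
    have := h0 ξ hξ
    simp only [dotProduct_sub, dotProduct_smul, smul_eq_mul, hκ] at this ⊢
    linear_combination -this)
  have h4 : A *ᵥ (n - κ • y) = 0 := by
    simpa using h.par h2 (z := 0) fun w hw => by
      rw [sub_zero, dotProduct_comm, symm_dot h.sA, dotProduct_comm, h3 w hw]
  refine ⟨κ, by rw [h1, h2], fun D => ?_⟩
  obtain ⟨φ, a1, a2⟩ := h.gen (dv q D - (n ⬝ᵥ dv q D / (n ⬝ᵥ n)) • (n - κ • y)) 0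
    (by rw [dotProduct_sub, dotProduct_smul, h2, h.tq]; simp) (by simp)
    (by simp [h.ny, h.nn])
  have h5 : φ κ = 0 := by
    have := dv_dot (cov N q) (vec n - κ • hat p) φ
    rw [h1, h2, map_zero, dv_cov (h.tq φ), h1, h.dN, h3 _ (h.tq φ), dv_sub, dv_smul, dv_vec,
      dv_hat, h.kn a2, a2] at this
    simpa [cov_hat, ← h.hy, m0] using this
  refine ⟨D - φ, ?_, ?_⟩
  · rw [dv_cov (h.tq _), h.dN, map_sub, a1, sub_sub_cancel, mulVec_smul, h4, smul_zero]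
    ext (_ | i) <;> simp [cov]
  · rw [map_sub, sub_eq_self, dv_sub, dv_smul, dv_vec, dv_hat, h.kn a2, a2, h5]; simp

lemma eig {μ s1 s2 : Ω} {x1 x2 : ι → Ω} (n1 : N ⬝ᵥ x1 = 0) (n2 : N ⬝ᵥ x2 = 0)
    (e1 : A *ᵥ x1 = μ • x1 + s1 • N) (e2 : A *ᵥ x2 = μ • x2 + s2 • N) (θ : Der C Ω) :
    x1 ⬝ᵥ A.map θ *ᵥ x2 = θ μ * (x1 ⬝ᵥ x2) + μ * s2 * (x1 ⬝ᵥ dv q θ) +
      μ * s1 * (x2 ⬝ᵥ dv q θ) := by
  have h1 := congrArg (fun x => x1 ⬝ᵥ dv x θ) e2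
  have h2 := dv_dot N x2 θ
  have h3 := h.tq θ
  rw [n2, map_zero, h.dN, dotProduct_comm, symm_dot h.sA, e2] at h2
  simp only [dv_mul, dv_add, dv_smul, dotProduct_add, h.dN, symm_dot h.sA x1, e1,
    dotProduct_smul, smul_eq_mul, dotProduct_comm x1 N, n1, dotProduct_comm (dv q θ),
    dotProduct_comm (dv x2 θ), h3, add_dotProduct, smul_dotProduct] at h1 h2
  linear_combination h1 + s1 * h2

/-- The case of orthogonal normals. -/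
lemma two (r : Rg C q n) (c0 : n ⬝ᵥ N = 0) {μ : Ω} (μ0 : μ ≠ 0)
    (h0 : ∀ ξ, N ⬝ᵥ ξ = 0 → A *ᵥ ξ ⬝ᵥ n = μ * (n ⬝ᵥ ξ)) : ∃ κ : Ω, κ ≠ 0 ∧
    cov n p ⬝ᵥ (κ • vec N - hat q) = 0 ∧ ∀ D : Der C Ω, ∃ D' : Der C Ω, dv (cov n p) D' = 0 ∧
      dv (κ • vec N - hat q) D' = dv (κ • vec N - hat q) D := by
  have c1 : N ⬝ᵥ n = 0 := (dotProduct_comm _ _).trans c0
  obtain ⟨s, e1⟩ : ∃ s : Ω, A *ᵥ n = μ • n + s • N := ⟨_, by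
    rw [h.par c1 (z := μ • n) fun w hw => by
      rw [sub_dotProduct, dotProduct_comm, symm_dot h.sA, dotProduct_comm, h0 w hw]; simp,
      sub_eq_add_neg, ← neg_smul]⟩
  have k1 : ∀ θ : Der C Ω, dv q θ = 0 → θ μ = 0 := fun θ hθ => by
    simpa [h.kA θ hθ, hθ, h.nn] using h.eig c1 c1 e1 e1 θ
  obtain ⟨θ, a1, a2⟩ := r
  have c2 : N ⬝ᵥ dv n θ = 0 := by
    simpa [c1, h.kN a1] using (dv_dot N n θ).symm
  have e2 : A *ᵥ dv n θ = μ • dv n θ + θ s • N := by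
    simpa [dv_mul, dv_add, dv_smul, h.kA θ a1, k1 θ a1, h.kN a1] using congrArg (dv · θ) e1
  obtain ⟨φ, b1⟩ := h.ex c1
  obtain ⟨ψ, b2⟩ := h.ex c2
  have k2 : φ μ = μ * s := by
    have c := h.cod φ ψ
    have h1 := h.eig c1 c2 e1 e2 φ
    have h2 := h.eig c1 c1 e1 e1 ψ
    have h3 := h.eig c2 c2 e2 e2 φ
    have h4 := h.eig c2 c1 e2 e1 ψ
    rw [b1, b2] at c
    rw [c, b1] at h1 h3
    rw [b2] at h2 h4
    rw [dotProduct_comm (dv n θ) n] at h1 h3 h4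
    refine sub_eq_zero.1 ((mul_eq_zero.1 ?_).resolve_right a2)
    linear_combination (n ⬝ᵥ dv n θ) * (h1 - h2) - (n ⬝ᵥ n) * (h3 - h4)
  refine ⟨μ⁻¹, inv_ne_zero μ0, by
    rw [dotProduct_sub, dotProduct_smul, cov_vec, cov_hat, c0, ← neg_sub p q, ← h.hy]; simp [h.ny],
    fun D => ?_⟩
  obtain ⟨χ, d1, d2⟩ := h.gen ((y ⬝ᵥ H *ᵥ dv p D / (n ⬝ᵥ n)) • n) (dv p D) (by simp [c1]) (h.tp D)
    (by simp [h.nn])
  generalize y ⬝ᵥ H *ᵥ dv p D / (n ⬝ᵥ n) = a at d1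
  have k3 : χ μ = a * (μ * s) := by
    simpa [k2, sub_eq_zero] using k1 (χ - a • φ) (by simp [d1, b1])
  refine ⟨D - χ, ?_, ?_⟩
  · rw [dv_cov (h.tp _), h.dn, map_sub, d2, sub_self, mulVec_zero]
    ext (_ | i) <;> simp [cov]
  · rw [map_sub, sub_eq_self, dv_sub, dv_smul, dv_vec, dv_hat, h.dN, d1, mulVec_smul, e1,
      Derivation.leibniz_inv, k3]
    ext (_ | i) <;> simp [vec]
    field_simp
    ring

end Cf

end Pool.Agent.MP_249f74_an.H20
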