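import Pool.Agent.MP_249f74_an.H20.BerCore
import Pool.Agent.MP_249f74_an.H65.Br

/-!
The confocal case of the mirror equation.
-/

open MvPolynomial
open Matrix hiding vec J

set_option linter.unusedSectionVars false

namespace Pool.Agent.MP_249f74_an.H20

open H17 (Der)
open H17.Cm (hat vec sp hat_dot vec_dot quad J Conf grad)
open H90 (dv dv_apply dv_dot dv_add dv_sub dv_smul dv_zero der_two)
open H74 (par1 eq_zero_of_dot symm_dot cv const_of_kil dv_mulVec)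

variable {C Ω ι : Type} [Field C] [Field Ω] [Algebra C Ω] [Fintype ι] [DecidableEq ι]

/-- The vector that is conjugate to the tangent hyperplane. -/
structure One (y N n v : ι → Ω) (A : Matrix ι ι Ω) (e : ι) (α l : Ω) : Prop where
  a0 : α ≠ 0
  l0 : l ≠ 0
  hv : v = α • y + l • n
  Nv : N ⬝ᵥ v = 0
  Av : A *ᵥ v = n - n e • N

lemma linz {G : MvPolynomial ι C} {p : ι → Ω} (kp : ∀ W, aeval p W = 0 → G ∣ W)
    (dG : 2 ≤ G.totalDegree) {K : Option ι → C} (h : cv Ω K ⬝ᵥ hat p = 0) : K = 0 :=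
  H17.Cm.aff_eq_zero <| by_contra fun h0 => by
    have h1 := totalDegree_le_of_dvd_of_isDomain
      (kp _ ((H17.Cm.aeval_aff K p).trans ((dotProduct_comm _ _).trans h))) h0
    have h2 := H17.Cm.td_aff_le K
    omega

namespace Cf

variable {q p y N n v : ι → Ω} {A H : Matrix ι ι Ω} {e : ι} {α l : Ω}
  (h : Cf C q p y N n A H e)
include h

lemma one (c0 : n ⬝ᵥ N ≠ 0) {μ : Ω} (μ0 : μ ≠ 0) (h0 : ∀ ξ, N ⬝ᵥ ξ = 0 →
    A *ᵥ ξ ⬝ᵥ ((n ⬝ᵥ N) • y - (N ⬝ᵥ y) • n) = μ * (n ⬝ᵥ ξ)) : ∃ v α l, One y N n v A e α l := by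
  have h1 : N ⬝ᵥ ((n ⬝ᵥ N / μ) • y + (-(N ⬝ᵥ y) / μ) • n) = 0 := by
    simp only [dotProduct_add, dotProduct_smul, smul_eq_mul, dotProduct_comm N n]; ring
  refine ⟨_, _, _, div_ne_zero c0 μ0, div_ne_zero (neg_ne_zero.2 h.Ny) μ0, rfl, h1,
    h.par h1 fun w hw => ?_⟩
  have := h0 w hw
  rw [sub_dotProduct, dotProduct_comm, symm_dot h.sA, dotProduct_comm]
  simp only [dotProduct_add, dotProduct_sub, dotProduct_smul, smul_eq_mul] at this ⊢
  field_simp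
  linear_combination this

variable (o : One y N n v A e α l)
include o

lemma nv : n ⬝ᵥ v = l * (n ⬝ᵥ n) := by simp [o.hv, h.ny]

lemma vv : v ⬝ᵥ A *ᵥ v = l * (n ⬝ᵥ n) := by
  simp [o.Av, dotProduct_comm v, o.Nv, h.nv o]

/-- The derivative of the basic identity. -/
lemma main (θ : Der C Ω) : v ⬝ᵥ A.map θ *ᵥ v + θ l * (n ⬝ᵥ n) =
    2 * (α - n e) * (n ⬝ᵥ dv q θ) := by
  have h1 := congrArg θ (h.vv o)
  have h2 := dv_dot N v θ
  have h3 := congrArg (fun x => n ⬝ᵥ dv x θ) o.hv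
  rw [o.Nv, map_zero, h.dN, dotProduct_comm, symm_dot h.sA, o.Av] at h2
  rw [dv_dot, dv_mul, dotProduct_add, symm_dot h.sA v (dv v θ), o.Av, Derivation.leibniz,
    dv_dot] at h1
  simp only [dv_add, dv_smul, h.dy, dotProduct_add, dotProduct_sub, dotProduct_smul, h.ny, h.tp,
    smul_eq_mul, dotProduct_comm (dv _ θ), h.tq, sub_dotProduct, smul_dotProduct] at h1 h2 h3
  linear_combination h1 - 2 * h3 - 2 * n e * h2

lemma kl {θ : Der C Ω} (h0 : dv q θ = 0) : θ l = 0 := by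
  simpa [h.kA θ h0, h0, h.nn] using h.main o θ

lemma dAv {θ : Der C Ω} (h0 : dv q θ = 0) : A *ᵥ dv v θ = dv n θ - θ (n e) • N := by
  simpa [dv_mul, dv_sub, dv_smul, h.kA θ h0, h.kN h0] using congrArg (dv · θ) o.Av

lemma srj (b : ι → Ω) : ∃ (θ : Der C Ω) (r s : Ω), dv q θ = 0 ∧
    l • A *ᵥ (dv v θ - r • v) - (dv v θ - r • v) = b + s • N := by
  have a0 := o.a0
  have c0 : n ⬝ᵥ N ≠ 0 := fun c0 => mul_ne_zero a0 h.Ny (by
    simpa [o.hv, dotProduct_comm N n, c0] using o.Nv)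
  obtain ⟨θ, a, a1, a2⟩ := h.exq (ζ := (-α⁻¹) • (b - (n ⬝ᵥ b / (n ⬝ᵥ N)) • N)) (by simp [c0])
  refine ⟨θ, θ α / α + a, θ α / α * l * n e + a * l * n e - l * θ (n e) - n ⬝ᵥ b / (n ⬝ᵥ N), a1, ?_⟩
  rw [mulVec_sub, mulVec_smul, h.dAv o a1, o.Av, o.hv, dv_add, dv_smul, dv_smul, h.kl o a1, h.dy,
    a1, a2]
  match_scalars <;> field_simp <;> ring

lemma mov {η : ι → Ω} (h0 : N ⬝ᵥ η = 0) : ∃ (θ : Der C Ω) (r : Ω), dv q θ = 0 ∧
    dv v θ = η + r • v := by
  have k : ∀ {θ : Der C Ω} (r : Ω), dv q θ = 0 → N ⬝ᵥ (dv v θ - r • v) = 0 := fun {θ} r h1 => by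
    simpa [o.Nv, h.kN h1] using (dv_dot N v θ).symm
  obtain ⟨θ, r, s, a1, a2⟩ := h.srj o (l • A *ᵥ η - η)
  refine ⟨θ, r, a1, ?_⟩
  obtain ⟨x, hx⟩ : ∃ x, x = dv v θ - r • v - η := ⟨_, rfl⟩
  have x1 : x ⬝ᵥ N = 0 := by rw [dotProduct_comm, hx, dotProduct_sub, k r a1, h0, sub_self]
  have x2 : l • A *ᵥ x - x = s • N := by
    rw [hx, mulVec_sub, smul_sub]; linear_combination (norm := abel) a2
  have : x = 0 := eq_zero_of_dot fun b => by
    obtain ⟨φ, r', s', b1, b2⟩ := h.srj o b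
    have h1 := congrArg (x ⬝ᵥ ·) b2
    have h2 := congrArg ((dv v φ - r' • v) ⬝ᵥ ·) x2
    have h3 := k r' b1
    generalize dv v φ - r' • v = u at *
    simp only [dotProduct_add, dotProduct_sub, dotProduct_smul, x1, symm_dot h.sA x,
      dotProduct_comm u N, dotProduct_comm u x, h3, smul_eq_mul] at h1 h2
    linear_combination h2 - h1
  rw [hx] at this
  linear_combination (norm := abel) this

lemma rk2 (r : Rg C q n) : ¬∀ x, (v ⬝ᵥ A *ᵥ v) • A *ᵥ x = (v ⬝ᵥ A *ᵥ x) • A *ᵥ v := fun h0 => by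
  obtain ⟨θ, a1, a2⟩ := r
  have := h0 (dv v θ)
  generalize v ⬝ᵥ A *ᵥ dv v θ = b at this
  rw [h.dAv o a1, h.vv o, o.Av] at this
  exact mul_ne_zero o.l0 h.nn (h.nz a1 a2 (b := -b) (s := b * n e - l * (n ⬝ᵥ n) * θ (n e)) (by
    linear_combination (norm := module) this))

/-- The vector `v` is generic in the tangent space. -/
lemma genv [CharZero Ω] {L : Type} [Field L] [Algebra L Ω]
    (hL : ∀ θ : Der C Ω, dv q θ = 0 → ∀ c, θ (algebraMap L Ω c) = 0) {P : MvPolynomial ι L} {d : ℕ}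
    (hP : P.IsHomogeneous d) (he : pderiv e P = 0) (h0 : aeval v P = 0) : P = 0 := by
  refine H17.Cm.eq_zero_of_stable (y := v) (fun P => (∃ d, P.IsHomogeneous d) ∧ pderiv e P = 0 ∧
    aeval v P = 0) (fun P ⟨⟨d, h1⟩, h2, h3⟩ => ⟨h3, fun j => ⟨⟨_, h1.pderiv⟩, ?_, ?_⟩⟩) P
    ⟨⟨d, hP⟩, he, h0⟩
  · rw [H65.pderiv_comm, h2, map_zero]
  obtain ⟨θ, r, a1, a2⟩ := h.mov o (η := Pi.single j 1 - N j • Pi.single e 1) (by simp [h.Ne])
  have e1 := H17.Cm.der_aeval (H17.toDer (θ.restrictScalars ℤ) (hL θ a1)) v P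
  have e2 : grad P v ⬝ᵥ v = 0 := by
    simpa [h3, grad, dotProduct, mul_comm] using congrArg (aeval v) h1.sum_X_mul_pderiv
  have e3 : grad P v e = 0 := by simp [grad, h2]
  rw [h3, map_zero] at e1
  change 0 = grad P v ⬝ᵥ dv v θ at e1
  change grad P v j = 0
  simpa [a2, e2, e3] using e1.symm

/-- The end of the confocal case. -/
lemma conf [IsAlgClosed C] [CharZero Ω] (r : Rg C q n) {F G : MvPolynomial ι C}
    (kq : ∀ W, aeval q W = 0 → F ∣ W) (kp : ∀ W, aeval p W = 0 → G ∣ W)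
    (dF : 2 ≤ F.totalDegree) (dG : 2 ≤ G.totalDegree) {B : Matrix (Option ι) (Option ι) C}
    (sB : B.IsSymm) {ρ : Ω} (ρ0 : ρ ≠ 0) (hB : B.map (algebraMap C Ω) *ᵥ hat q = ρ • cov N q) :
    Conf F G := by
  have : CharZero C := (algebraMap C Ω).charZero
  obtain ⟨B', hB'⟩ : ∃ B', B' = B.map (algebraMap C Ω) := ⟨_, rfl⟩
  have sB' : B'.IsSymm := hB' ▸ sB.map _
  have dB : ∀ (x : Option ι → Ω) (θ : Der C Ω), dv (B' *ᵥ x) θ = B' *ᵥ dv x θ := fun x θ =>
    hB' ▸ dv_mulVec B x θ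
  rw [← hB'] at hB
  obtain ⟨θ, hθ⟩ := h.ex o.Nv
  have pq : n ⬝ᵥ p = n ⬝ᵥ q := by simpa [h.hy, sub_eq_zero] using h.ny
  obtain ⟨κ, hκ⟩ : ∃ κ : Ω, B' *ᵥ (vec v - κ • hat q) = ρ • cov n p := ⟨θ ρ / ρ - n e, by
    have := dB (hat q) θ
    rw [hB, dv_smul, dv_hat, dv_cov (h.tq θ), h.dN, hθ, o.Av] at this
    rw [mulVec_sub, mulVec_smul, hB, ← this]
    ext (_ | i) <;> simp [cov, pq] <;> field_simp <;> ring⟩
  obtain ⟨Y, hY⟩ : ∃ Y, Y = vec v - κ • hat q := ⟨_, rfl⟩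
  rw [← hY] at hκ
  have nq : cov n p ⬝ᵥ hat q = 0 := by rw [cov_hat, dotProduct_sub, pq, sub_self]
  have nY : cov n p ⬝ᵥ Y = l * (n ⬝ᵥ n) := by simp [hY, cov_vec, nq, h.nv o]
  have key : ∀ φ : Der C Ω, dv (cov n p) φ ⬝ᵥ (Y - l • vec n) * 2 =
      ρ * φ (l / ρ) * (n ⬝ᵥ n) := fun φ => by
    have h1 := congrArg φ nY
    have h2 := dB Y φ
    rw [hκ, dv_smul] at h2
    replace h2 := congrArg (Y ⬝ᵥ ·) h2
    simp only [symm_dot sB' Y, hκ, add_dotProduct, smul_dotProduct, smul_eq_mul,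
      dotProduct_comm Y, nY, dotProduct_comm (dv Y φ)] at h2
    rw [dv_dot, Derivation.leibniz, dv_dot] at h1
    rw [dotProduct_sub, dotProduct_smul, Derivation.leibniz_div,
      dv_cov (h.tp φ), cov_vec, ← dv_cov (h.tp φ)]
    simp only [smul_eq_mul, dotProduct_comm n (dv n φ)] at h1 ⊢
    field_simp
    linear_combination ρ * h1 + h2
  obtain ⟨c, hc⟩ := const_of_kil (C := C) (x := l / ρ) (h.const r (fun φ hφ => by
    have := dB (hat q) φ
    rw [hB, dv_smul, dv_hat, dv_cov (h.tq φ), h.kN hφ, hφ] at this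
    have h1 : φ ρ = 0 := by simpa [cov, h.Ne] using congrFun this (some e)
    simp [Derivation.leibniz_div, h1, h.kl o hφ]) fun φ hφ => by
      have := key φ
      rw [dv_cov (h.tp φ), h.kn hφ, show cov 0 p = 0 by ext (_ | i) <;> simp [cov]] at this
      simpa [ρ0, h.nn] using this)
  have e1 : α • hat p = (α + κ) • hat q + (Y - l • vec n) := by
    rw [hY, o.hv, h.hy]; ext (_ | i) <;> simp [hat, vec]; ring
  have e2 : α + κ = 0 := by
    have h1 := key θ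
    have h2 := dv_dot (cov n p) (hat p) θ
    have h3 := dv_dot (cov n p) (hat q) θ
    have h4 := congrArg (dv (cov n p) θ ⬝ᵥ ·) e1
    rw [← hc, Derivation.map_algebraMap] at h1
    rw [cov_hat, sub_self, dotProduct_zero, map_zero, dv_hat, cov_vec, h.tp] at h2
    rw [nq, map_zero, dv_hat, cov_vec, hθ, h.nv o] at h3
    simp only [dotProduct_add, dotProduct_smul, smul_eq_mul] at h4
    refine mul_right_cancel₀ (mul_ne_zero o.l0 h.nn) ?_
    linear_combination h4 - (α + κ) * h3 + α * h2 + h1 / 2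
  have hl : algebraMap C Ω c * ρ = l := by rw [hc, div_mul_cancel₀ _ ρ0]
  have cB : ∀ x, (c • B).map (algebraMap C Ω) *ᵥ x = algebraMap C Ω c • B' *ᵥ x := fun x => by
    rw [hB', ← smul_mulVec]; congr 1; ext; simp
  obtain ⟨M, hM⟩ : ∃ M, M = 1 - J ι C * (c • B) := ⟨_, rfl⟩
  have e3 : M.map (algebraMap C Ω) *ᵥ Y = α • hat p := by
    rw [e1, e2, zero_smul, zero_add, hM, Matrix.map_sub _ (map_sub _), Matrix.map_mul,
      Matrix.map_one _ (map_zero _) (map_one _), sub_mulVec, one_mulVec, ← mulVec_mulVec, cB,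
      hκ, smul_smul, hl, H17.Cm.J_map, H17.Cm.J_mulVec, H17.Cm.sp_smul, sp_cov, H17.Cm.vec_smul]
  have u : IsUnit M.det := Ne.isUnit fun h0 => by
    obtain ⟨z, z0, hz⟩ := exists_vecMul_eq_zero_iff.2 h0
    have h1 := congrArg (cv Ω z ⬝ᵥ ·) e3
    have h2 : cv Ω z ᵥ* M.map (algebraMap C Ω) = 0 := funext fun i => by
      simpa [vecMul, dotProduct] using congrArg (algebraMap C Ω) (congrFun hz i)
    simp only [dotProduct_mulVec, h2, zero_dotProduct, dotProduct_smul, smul_eq_mul] at h1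
    exact z0 (linz kp dG ((mul_eq_zero.1 h1.symm).resolve_left o.a0))
  have sc : (c • B).IsSymm := sB.smul c
  have e4 : (c • B) * M⁻¹ * M = c • B := nonsing_inv_mul_cancel_right _ _ u
  have e5 : α • ((c • B) * M⁻¹).map (algebraMap C Ω) *ᵥ hat p = l • cov n p := by
    rw [← mulVec_smul, ← e3, mulVec_mulVec, ← Matrix.map_mul, e4, cB, hκ, smul_smul, hl]
  have e6 : Mᵀ * (c • B) = (c • B) * M := by
    rw [hM, transpose_sub, transpose_mul, sc.eq, H17.Cm.J_symm.eq, transpose_one, Matrix.sub_mul,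
      Matrix.mul_sub, Matrix.mul_assoc, Matrix.one_mul, Matrix.mul_one]
  have s2 : ((c • B) * M⁻¹).IsSymm := by
    rw [IsSymm, transpose_mul, sc.eq, transpose_nonsing_inv]
    calc Mᵀ⁻¹ * (c • B) = Mᵀ⁻¹ * ((c • B) * M * M⁻¹) := by
          rw [mul_nonsing_inv_cancel_right _ _ u]
      _ = _ := by
          rw [← e6, Matrix.mul_assoc, nonsing_inv_mul_cancel_left _ _ (by rwa [det_transpose])]
  refine Conf.of_mat sc s2 (fun h0 => ?_) (fun h0 => ?_) ?_ (kq _ ?_) (kp _ ?_) dF dG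
  · have := cB (hat q)
    rw [h0, hB, smul_smul, hl] at this
    exact o.l0 (by simpa [cov, h.Ne] using congrFun this.symm (some e))
  · rw [h0] at e5
    have := congrArg (· ⬝ᵥ vec n) e5
    exact mul_ne_zero o.l0 h.nn (by simpa [cov_vec] using this.symm)
  · generalize (c • B) * M⁻¹ = B2 at e4 s2
    have := congrArg transpose e4
    rw [hM, transpose_mul, s2.eq, transpose_sub, transpose_mul, sc.eq, H17.Cm.J_symm.eq,
      transpose_one, Matrix.sub_mul, Matrix.one_mul] at this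
    linear_combination (norm := abel) this
  · rw [H17.Cm.aeval_quad, cB, hB, smul_smul, dotProduct_smul, dotProduct_comm, cov_hat]; simp
  · refine mul_left_cancel₀ o.a0 ?_
    rw [H17.Cm.aeval_quad, ← smul_eq_mul, ← dotProduct_smul, e5, dotProduct_smul,
      dotProduct_comm, cov_hat]; simp

end Cf

end Pool.Agent.MP_249f74_an.H20
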